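import Pool.Agent.R623.AF.Stm

set_option autoImplicit false

namespace Pool.Agent.R623.AF

open NumberField IsDedekindDomain Finset

lemma exists_det_ne_zero {ι T : Type*} [Fintype ι] [DecidableEq ι] (w : T → ι → ℂ) (T' : Set T)
    (h : ∀ c : ι → ℂ, (∀ τ ∈ T', ∑ i, c i * w τ i = 0) → c = 0) :
    ∃ j : ι → T, (∀ i, j i ∈ T') ∧ (Matrix.of fun i i' => w (j i') i).det ≠ 0 := by
  classical
  have hspan : Submodule.span ℂ (w '' T') = ⊤ := by
    by_contra hne
    have hlt : Submodule.span ℂ (w '' T') < ⊤ := lt_top_iff_ne_top.mpr hne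
    obtain ⟨f, hf0, hf⟩ := Submodule.exists_le_ker_of_lt_top _ hlt
    apply hf0
    have hc := h (fun i => f (fun j => if i = j then 1 else 0)) (by
      intro τ hτ
      have h1 : w τ ∈ Submodule.span ℂ (w '' T') := Submodule.subset_span ⟨τ, hτ, rfl⟩
      have h2 : f (w τ) = 0 := hf h1
      rw [LinearMap.pi_apply_eq_sum_univ f (w τ)] at h2
      refine Eq.trans (sum_congr rfl ?_) h2
      intro i _
      rw [smul_eq_mul, mul_comm])
    ext x
    have h3 : ∀ i, f (fun j => if i = j then (1:ℂ) else 0) = 0 := fun i => congrFun hc i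
    simp only [LinearMap.coe_comp, Function.comp_apply, LinearMap.zero_apply, LinearMap.zero_comp]
    rw [LinearMap.pi_apply_eq_sum_univ f]
    simp [h3]
  obtain ⟨f, hfs, hfspan, hfind⟩ := Submodule.exists_fun_fin_finrank_span_eq ℂ (w '' T')
  have hrank : Module.finrank ℂ (Submodule.span ℂ (w '' T')) = Fintype.card ι := by
    rw [hspan, finrank_top, Module.finrank_fintype_fun_eq_card]
  have e : ι ≃ Fin (Module.finrank ℂ (Submodule.span ℂ (w '' T'))) :=
    (Fintype.equivFin ι).trans (finCongr hrank.symm)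
  choose g hg using hfs
  refine ⟨fun i => g (e i), fun i => (hg _).1, ?_⟩
  have hind : LinearIndependent ℂ (fun i : ι => w (g (e i))) := by
    have : (fun i : ι => w (g (e i))) = f ∘ e := by
      ext i
      simp [(hg _).2]
    rw [this]
    exact hfind.comp _ e.injective
  have h2 : (Matrix.of fun i i' => w (g (e i')) i) =
      (Matrix.of fun i => w (g (e i))).transpose := by
    ext i i'
    simp
  rw [h2, Matrix.det_transpose]
  have h3 : IsUnit (Matrix.of fun i => w (g (e i))) :=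
    Matrix.linearIndependent_rows_iff_isUnit.mp hind
  rw [Matrix.isUnit_iff_isUnit_det] at h3
  exact h3.ne_zero

/-- the norm of a nonzero algebraic integer -/
lemma one_le_prod {K : Type} [Field K] [NumberField K] {z : K} (hz : IsIntegral ℤ z)
    (h0 : z ≠ 0) : (1 : ℝ) ≤ ∏ σ : K →+* ℂ, ‖σ z‖ := by
  obtain ⟨τ, rfl⟩ : ∃ τ : 𝓞 K, (τ : K) = z := ⟨⟨z, hz⟩, rfl⟩
  have h1 := congrArg (‖·‖) (Algebra.norm_eq_prod_embeddings ℚ ℂ (τ : K))
  simp only [norm_prod] at h1
  rw [← Fintype.prod_equiv (RingHom.equivRatAlgHom K ℂ) (fun f => ‖f (τ : K)‖)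
      (fun φ => ‖φ (τ : K)‖) fun _ => by simp [RingHom.equivRatAlgHom_apply]] at h1
  rw [← h1, ← Algebra.coe_norm_int, eq_ratCast, Rat.cast_intCast, Complex.norm_intCast]
  have h2 : Algebra.norm ℤ τ ≠ 0 := by
    rw [Ne, Algebra.norm_eq_zero_iff]
    rintro rfl
    exact h0 (by simp)
  exact_mod_cast Int.one_le_abs h2

/-- trivial bound for determinants -/
lemma norm_det_le_prod {ι : Type*} [Fintype ι] [DecidableEq ι] (M : Matrix ι ι ℂ) (w : ℝ)
    (h : ∀ i j, ‖M i j‖ ≤ w) :
    ‖M.det‖ ≤ (Fintype.card ι).factorial * w ^ Fintype.card ι := by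
  have h1 := Matrix.det_le (A := M) (abv := NormedField.toAbsoluteValue ℂ) (x := w)
    (fun i j => h i j)
  rw [nsmul_eq_mul] at h1
  exact h1

/-- bound for the binomial coefficients -/
lemma choose_le {t p j A : ℕ} {G : ℝ} (hp : 1 ≤ p) (hj : j ≤ A) (ht : (t : ℝ) ≤ G * p) :
    ((t.choose j : ℕ) : ℝ) ≤ (p : ℝ) ^ A * Real.exp G := by
  have hp0 : (0 : ℝ) < p := by exact_mod_cast hp
  have h1 : ((t.choose j : ℕ) : ℝ) ≤ (t : ℝ) ^ j / j.factorial := Nat.choose_le_pow_div j t
  have h2 : ((t : ℝ) / p) ^ j / j.factorial ≤ Real.exp (t / p) :=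
    Real.pow_div_factorial_le_exp _ (by positivity) j
  have h3 : (t : ℝ) ^ j / j.factorial = (p : ℝ) ^ j * (((t : ℝ) / p) ^ j / j.factorial) := by
    rw [div_pow]; field_simp
  rw [h3] at h1
  refine h1.trans ?_
  apply mul_le_mul
  · exact pow_le_pow_right₀ (by exact_mod_cast hp) hj
  · refine h2.trans (Real.exp_le_exp.2 ?_)
    rw [div_le_iff₀ hp0]; exact ht
  · positivity
  · positivity

/-- the matrix of algebraic integers -/
noncomputable def Mat {K : Type} [Field K] (x y : K) (p k A L M : ℕ)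
    (f : Fin A × Fin L → ℕ × ℕ) : Matrix (Fin A × Fin L) (Fin A × Fin L) K :=
  Matrix.of fun i i' => ((((f i').1 * p + (f i').2 * k).choose (i.1 : ℕ) : ℕ) : K) *
    ((x + y) * x ^ (M - (i.2 : ℕ) * (f i').2) * (-y) ^ ((i.2 : ℕ) * (f i').2))

set_option maxHeartbeats 1000000 in
theorem ARI : S_ARI := by
  classical
  intro hSCH hZER K _ _ x y p k A L R S h σ₀ Λ hp hx hy hs hk hkp hA hL hSLp hLA hint hprod hexp
    hΛ hrou
  have hp0 : 0 < p := hp.pos
  have hpr : (0 : ℝ) < p := by exact_mod_cast hp0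
  set α : ℂ := -(σ₀ y) / σ₀ x with hα
  have hx0 : σ₀ x ≠ 0 := (map_ne_zero σ₀).2 hx
  have hy0 : σ₀ y ≠ 0 := (map_ne_zero σ₀).2 hy
  have hα0 : α ≠ 0 := div_ne_zero (neg_ne_zero.2 hy0) hx0
  have hcop : Nat.Coprime k p := by
    rw [Nat.coprime_comm]
    exact (Nat.Prime.coprime_iff_not_dvd hp).2 fun hd => by
      have := Nat.le_of_dvd hk hd
      omega
  set M : ℕ := L * (S + L) with hM
  set N : ℕ := A * L with hN
  have hNpos : 0 < N := Nat.mul_pos hA hL
  have hcard : Fintype.card (Fin A × Fin L) = N := by simp [hN]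
  -- the points
  obtain ⟨f, hfT, hdet⟩ := exists_det_ne_zero (ι := Fin A × Fin L) (T := ℕ × ℕ)
    (fun τ i => (((τ.1 * p + τ.2 * k).choose (i.1 : ℕ) : ℕ) : ℂ) * α ^ (τ.2 * (i.2 : ℕ)))
    {τ | τ.1 < R ∧ τ.2 < S + L} (by
      intro c hc
      have := hZER A L R S p k α hcop (by omega) hp0 hα0 hrou hLA (fun i l => c (i, l)) (by
        intro r s hr hs
        have := hc (r, s) ⟨hr, hs⟩
        rw [← this, Fintype.sum_prod_type])
      ext ⟨i, l⟩
      exact congrFun (congrFun this i) l)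
  set E0 : Matrix (Fin A × Fin L) (Fin A × Fin L) ℂ := Matrix.of fun i i' =>
    ((((f i').1 * p + (f i').2 * k).choose (i.1 : ℕ) : ℕ) : ℂ) * α ^ ((f i').2 * (i.2 : ℕ))
    with hE0
  have hf1 : ∀ i, (f i).1 < R := fun i => (hfT i).1
  have hf2 : ∀ i, (f i).2 < S + L := fun i => (hfT i).2
  have hls : ∀ (i i' : Fin A × Fin L), (i.2 : ℕ) * (f i').2 ≤ M := fun i i' =>
    Nat.mul_le_mul i.2.2.le (hf2 i').le
  set E : Matrix (Fin A × Fin L) (Fin A × Fin L) K := Mat x y p k A L M f with hE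
  -- the determinant at the distinguished place
  have hdet0 : σ₀ E.det = (∏ _i' : Fin A × Fin L, (σ₀ (x + y) * σ₀ x ^ M)) * E0.det := by
    rw [← Matrix.det_mul_row, RingHom.map_det]
    congr 1
    ext i i'
    simp only [RingHom.mapMatrix_apply, Matrix.map_apply, hE, Mat, Matrix.of_apply, hE0, map_mul,
      map_natCast, map_pow, map_neg]
    have h1 : σ₀ x ^ (M - (i.2 : ℕ) * (f i').2) * (-(σ₀ y)) ^ ((i.2 : ℕ) * (f i').2) =
        σ₀ x ^ M * α ^ ((f i').2 * (i.2 : ℕ)) := by
      rw [hα, mul_comm (f i').2, div_pow, ← mul_div_assoc, eq_div_iff (pow_ne_zero _ hx0)]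
      rw [mul_right_comm, ← pow_add, Nat.sub_add_cancel (hls i i')]
    linear_combination ((((f i').1 * p + (f i').2 * k).choose (i.1 : ℕ) : ℕ) : ℂ) * σ₀ (x + y) * h1
  have hEdet : E.det ≠ 0 := by
    intro h0
    rw [h0, map_zero] at hdet0
    have h1 : (∏ _i' : Fin A × Fin L, (σ₀ (x + y) * σ₀ x ^ M)) ≠ 0 :=
      prod_ne_zero_iff.2 fun _ _ => mul_ne_zero ((map_ne_zero σ₀).2 hs) (pow_ne_zero _ hx0)
    exact mul_ne_zero h1 hdet hdet0.symm
  have hEint : IsIntegral ℤ E.det := by
    refine IsIntegral.det fun i i' => ?_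
    simp only [hE, Mat, Matrix.of_apply]
    refine IsIntegral.mul ?_ ?_
    · have h1 := isIntegral_algebraMap (R := ℤ) (A := K)
        (x := ((((f i').1 * p + (f i').2 * k).choose (i.1 : ℕ) : ℕ) : ℤ))
      simpa using h1
    · have h1 := hint (M - (i.2 : ℕ) * (f i').2) ((i.2 : ℕ) * (f i').2) (by
        have := hls i i'; omega)
      have h2 : (x + y) * x ^ (M - (i.2 : ℕ) * (f i').2) * (-y) ^ ((i.2 : ℕ) * (f i').2) =
          (-1) ^ ((i.2 : ℕ) * (f i').2) * ((x + y) * x ^ (M - (i.2 : ℕ) * (f i').2) *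
            y ^ ((i.2 : ℕ) * (f i').2)) := by
        rw [neg_pow y]; ring
      rw [h2]
      exact ((isIntegral_one.neg).pow _).mul h1
  have hone := one_le_prod hEint hEdet
  -- notation
  set m : (K →+* ℂ) → ℝ := fun σ => max 1 (max ‖σ x‖ ‖σ y‖) with hm
  have hm1 : ∀ σ, 1 ≤ m σ := fun σ => le_max_left _ _
  have hmx : ∀ σ, ‖σ x‖ ≤ m σ := fun σ => (le_max_left _ _).trans (le_max_right _ _)
  have hmy : ∀ σ, ‖σ y‖ ≤ m σ := fun σ => (le_max_right _ _).trans (le_max_right _ _)
  have hms : ∀ σ, ‖σ (x + y)‖ ≤ 2 * m σ := fun σ => by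
    rw [map_add]
    refine (norm_add_le _ _).trans ?_
    have := hmx σ
    have := hmy σ
    linarith
  set G : ℝ := R + S + L with hG
  have hG0 : 0 ≤ G := by positivity
  have ht : ∀ i', (((f i').1 * p + (f i').2 * k : ℕ) : ℝ) ≤ G * p := by
    intro i'
    have h1 : ((f i').1 : ℝ) ≤ R := by exact_mod_cast (hf1 i').le
    have h2 : ((f i').2 : ℝ) ≤ S + L := by exact_mod_cast (hf2 i').le
    have h3 : (k : ℝ) ≤ p := by exact_mod_cast hkp.le
    push_cast
    calc ((f i').1 : ℝ) * p + (f i').2 * k ≤ R * p + (S + L) * p := by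
          apply add_le_add
          · exact mul_le_mul_of_nonneg_right h1 hpr.le
          · exact mul_le_mul h2 h3 (by positivity) (by positivity)
      _ = G * p := by rw [hG]; ring
  -- bound at all places
  have hall : ∀ σ : K →+* ℂ, ‖σ E.det‖ ≤
      N.factorial * ((p : ℝ) ^ A * Real.exp G * (2 * m σ * m σ ^ M)) ^ N := by
    intro σ
    have h1 := norm_det_le_prod (E.map σ) ((p : ℝ) ^ A * Real.exp G * (2 * m σ * m σ ^ M)) (by
      intro i i'
      simp only [Matrix.map_apply, hE, Mat, Matrix.of_apply, map_mul, map_natCast, map_pow,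
        map_neg, norm_mul, norm_pow, norm_neg, Complex.norm_natCast]
      have h2 := choose_le (j := (i.1 : ℕ)) (A := A) hp0 i.1.2.le (ht i')
      apply mul_le_mul h2 _ (by positivity) (by positivity)
      rw [mul_assoc]
      apply mul_le_mul (hms σ) _ (by positivity) (by have := hm1 σ; positivity)
      calc ‖σ x‖ ^ (M - (i.2 : ℕ) * (f i').2) * ‖σ y‖ ^ ((i.2 : ℕ) * (f i').2)
          ≤ m σ ^ (M - (i.2 : ℕ) * (f i').2) * m σ ^ ((i.2 : ℕ) * (f i').2) := by
            apply mul_le_mul (pow_le_pow_left₀ (norm_nonneg _) (hmx σ) _)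
              (pow_le_pow_left₀ (norm_nonneg _) (hmy σ) _) (by positivity)
            have := hm1 σ
            positivity
        _ = m σ ^ M := by rw [← pow_add, Nat.sub_add_cancel (hls i i')])
    rw [hcard] at h1
    have h3 : σ E.det = (E.map σ).det := by
      rw [RingHom.map_det]; rfl
    rw [h3]; exact h1
  -- bound at the distinguished place
  have hz : ‖σ₀ E.det‖ * Real.exp 1 ^ (N * (N - 1) / 2) ≤
      (2 * m σ₀ * m σ₀ ^ M) ^ N * (N.factorial * ((p : ℝ) ^ A * Real.exp (3 * G + A) *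
        Real.exp (L * (18 * G + 1))) ^ N) := by
    set c : ℂ := 2 * Real.pi * Complex.I / p with hc
    have hcn : ‖c‖ = 2 * Real.pi / p := by
      rw [hc, norm_div, norm_mul, norm_mul, Complex.norm_I, Complex.norm_natCast, mul_one]
      rw [Complex.norm_real, Real.norm_of_nonneg Real.pi_pos.le]
      simp
    have hZ0 : (0 : ℝ) ≤ Real.exp (-(A * L : ℝ)) := (Real.exp_pos _).le
    have h1 := hSCH (Fin A × Fin L) (fun i => (i.1 : ℕ)) (fun i => (i.2 : ℕ))
      (fun i' => (f i').1 * p + (f i').2 * k) (fun i' => ((f i').2 : ℂ) * Λ / p) c p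
      ((R + S + L) * p) (Real.exp (-(A * L : ℝ))) hp0 hZ0 (by
        intro i'
        have := ht i'
        rw [hG] at this
        exact_mod_cast this) (by
        intro i'
        rw [norm_div, norm_mul, Complex.norm_natCast, Complex.norm_natCast]
        have h2 : ((f i').2 : ℝ) ≤ p := by
          have := hf2 i'
          exact_mod_cast (by omega : (f i').2 ≤ p)
        calc ((f i').2 : ℝ) * ‖Λ‖ / p ≤ p * ‖Λ‖ / p := by gcongr
          _ = ‖Λ‖ := by field_simp
          _ ≤ _ := hΛ)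
    rw [hcard] at h1
    have hEE : (Matrix.of fun i i' : Fin A × Fin L =>
        ((((f i').1 * p + (f i').2 * k).choose (i.1 : ℕ) : ℕ) : ℂ) *
        Complex.exp (((i.2 : ℕ) : ℂ) * (c * (((f i').1 * p + (f i').2 * k : ℕ) : ℂ) +
          ((f i').2 : ℂ) * Λ / p))) = E0 := by
      ext i i'
      simp only [hE0, Matrix.of_apply]
      congr 1
      rw [pow_mul, hexp, ← Complex.exp_nat_mul, ← Complex.exp_nat_mul]
      rw [Complex.exp_eq_exp_iff_exists_int]
      refine ⟨(i.2 : ℕ) * (f i').1, ?_⟩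
      have hpc : (p : ℂ) ≠ 0 := by exact_mod_cast hp0.ne'
      rw [hc]
      push_cast
      field_simp
      ring
    have hEE' : (Matrix.of fun i i' : Fin A × Fin L =>
        ((((f i').1 * p + (f i').2 * k).choose ((fun i : Fin A × Fin L => (i.1 : ℕ)) i) : ℕ) : ℂ) *
        Complex.exp ((((fun i : Fin A × Fin L => (i.2 : ℕ)) i : ℕ) : ℂ) *
          (c * (((fun i' : Fin A × Fin L => (f i').1 * p + (f i').2 * k) i' : ℕ) : ℂ) +
          (fun i' : Fin A × Fin L => ((f i').2 : ℂ) * Λ / p) i'))) = E0 := hEE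
    rw [hEE'] at h1
    have hZN : Real.exp 1 ^ N * Real.exp (-(A * L : ℝ)) = 1 := by
      rw [← Real.exp_nat_mul, ← Real.exp_add, hN]
      push_cast
      simp
    have he1 : Real.exp 1 ≤ 3 := by
      have := Real.exp_one_lt_d9
      linarith
    have he0 : 0 < Real.exp 1 := Real.exp_pos 1
    have hXG : (((R + S + L) * p : ℕ) : ℝ) = G * p := by rw [hG]; push_cast; ring
    have hrow : ∀ i : Fin A × Fin L, (p : ℝ) ^ (i.1 : ℕ) *
        Real.exp ((Real.exp 1 * (((R + S + L) * p : ℕ) : ℝ) + ((i.1 : ℕ) : ℝ)) / p) *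
        Real.exp (((i.2 : ℕ) : ℝ) * (‖c‖ * (Real.exp 1 * (((R + S + L) * p : ℕ) : ℝ)) +
          Real.exp 1 ^ N * Real.exp (-(A * L : ℝ)))) ≤
        (p : ℝ) ^ A * Real.exp (3 * G + A) * Real.exp (L * (18 * G + 1)) := by
      intro i
      rw [hZN, hXG, hcn]
      have hp1 : (1 : ℝ) ≤ p := by exact_mod_cast hp0
      apply mul_le_mul
      · apply mul_le_mul
        · exact pow_le_pow_right₀ hp1 i.1.2.le
        · apply Real.exp_le_exp.2
          rw [div_le_iff₀ hpr]
          have h2 : ((i.1 : ℕ) : ℝ) ≤ A := by exact_mod_cast i.1.2.le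
          have h3 : (A : ℝ) ≤ A * p := le_mul_of_one_le_right (by positivity) hp1
          have h4 : Real.exp 1 * (G * p) ≤ 3 * (G * p) :=
            mul_le_mul_of_nonneg_right he1 (by positivity)
          nlinarith
        · positivity
        · positivity
      · apply Real.exp_le_exp.2
        have h2 : ((i.2 : ℕ) : ℝ) ≤ L := by exact_mod_cast i.2.2.le
        have h3 : 2 * Real.pi / p * (Real.exp 1 * (G * p)) ≤ 18 * G := by
          have h4 : 2 * Real.pi / p * (Real.exp 1 * (G * p)) = (2 * Real.pi * Real.exp 1) * G := by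
            field_simp
          rw [h4]
          apply mul_le_mul_of_nonneg_right _ hG0
          have h5 := Real.pi_lt_d2
          have h6 := Real.exp_one_lt_d9
          have h7 := Real.pi_pos
          nlinarith
        have h8 : 0 ≤ 2 * Real.pi / p * (Real.exp 1 * (G * p)) := by positivity
        apply mul_le_mul h2 (by linarith) (by linarith) (by positivity)
      · positivity
      · positivity
    have h2 : ‖E0.det‖ * Real.exp 1 ^ (N * (N - 1) / 2) ≤
        N.factorial * ((p : ℝ) ^ A * Real.exp (3 * G + A) * Real.exp (L * (18 * G + 1))) ^ N := by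
      refine h1.trans ?_
      apply mul_le_mul_of_nonneg_left _ (by positivity)
      calc _ ≤ ∏ _i : Fin A × Fin L,
            ((p : ℝ) ^ A * Real.exp (3 * G + A) * Real.exp (L * (18 * G + 1))) :=
            prod_le_prod (fun i _ => by positivity) (fun i _ => hrow i)
        _ = _ := by rw [prod_const, card_univ, hcard]
    have h3 : ‖σ₀ E.det‖ = (‖σ₀ (x + y)‖ * ‖σ₀ x‖ ^ M) ^ N * ‖E0.det‖ := by
      rw [hdet0, norm_mul, norm_prod, prod_const, card_univ, hcard, norm_mul, norm_pow]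
    rw [h3, mul_assoc]
    apply mul_le_mul _ h2 (by positivity) (by have := hm1 σ₀; positivity)
    apply pow_le_pow_left₀ (by positivity)
    exact mul_le_mul (hms σ₀) (pow_le_pow_left₀ (norm_nonneg _) (hmx σ₀) _) (by positivity)
      (by have := hm1 σ₀; positivity)
  -- conclusion
  clear_value E M N
  set P : ℝ := (p : ℝ) ^ A with hP
  have hP1 : 1 ≤ P := one_le_pow₀ (by exact_mod_cast hp0)
  have hP0 : 0 < P := by linarith
  set Q : (K →+* ℂ) → ℝ := fun σ => N.factorial * (P * Real.exp G * (2 * m σ * m σ ^ M)) ^ N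
    with hQ
  have hm0 : ∀ σ, 0 < m σ := fun σ => lt_of_lt_of_le one_pos (hm1 σ)
  have hfac : (0 : ℝ) < N.factorial := by exact_mod_cast Nat.factorial_pos N
  have hQ0 : ∀ σ, 0 < Q σ := fun σ => by
    have := hm0 σ
    simp only [hQ]
    positivity
  set Y : ℝ := Real.exp (2 * G + A) * Real.exp (L * (18 * G + 1)) with hY
  have hY0 : 0 < Y := by positivity
  have hz' : ‖σ₀ E.det‖ * Real.exp 1 ^ (N * (N - 1) / 2) ≤ Q σ₀ * Y ^ N := by
    refine hz.trans (le_of_eq ?_)
    simp only [hQ, hY]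
    have e : Real.exp (3 * G + A) = Real.exp G * Real.exp (2 * G + A) := by
      rw [← Real.exp_add]; ring_nf
    rw [e]
    simp only [mul_pow]
    ring
  have hF0 : (0 : ℝ) < Real.exp 1 ^ (N * (N - 1) / 2) := by positivity
  have hmain : Real.exp 1 ^ (N * (N - 1) / 2) ≤ (∏ σ, Q σ) * Y ^ N := by
    calc Real.exp 1 ^ (N * (N - 1) / 2)
        ≤ (∏ σ : K →+* ℂ, ‖σ E.det‖) * Real.exp 1 ^ (N * (N - 1) / 2) :=
          le_mul_of_one_le_left hF0.le hone
      _ = (∏ σ ∈ univ.erase σ₀, ‖σ E.det‖) * (‖σ₀ E.det‖ * Real.exp 1 ^ (N * (N - 1) / 2)) := by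
          rw [← mul_prod_erase univ (fun σ : K →+* ℂ => ‖σ E.det‖) (mem_univ σ₀)]; ring
      _ ≤ (∏ σ ∈ univ.erase σ₀, Q σ) * (Q σ₀ * Y ^ N) := by
          apply mul_le_mul _ hz' (by positivity) (prod_nonneg fun σ _ => (hQ0 σ).le)
          exact prod_le_prod (fun σ _ => norm_nonneg _) (fun σ _ => hall σ)
      _ = (∏ σ, Q σ) * Y ^ N := by
          rw [← mul_prod_erase univ Q (mem_univ σ₀)]; ring
  have hlog := Real.log_le_log hF0 hmain
  rw [Real.log_pow, Real.log_exp, mul_one, Real.log_mul (prod_ne_zero_iff.2 fun σ _ => (hQ0 σ).ne')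
    (pow_ne_zero _ hY0.ne'), Real.log_prod (fun σ _ => (hQ0 σ).ne'), Real.log_pow] at hlog
  have hlogY : Real.log Y = 2 * G + A + L * (18 * G + 1) := by
    rw [hY, Real.log_mul (Real.exp_pos _).ne' (Real.exp_pos _).ne', Real.log_exp, Real.log_exp]
  have hlogQ : ∀ σ, Real.log (Q σ) ≤ N * Real.log N + N * (A * Real.log p + G + 1 +
      (1 + M) * Real.log (m σ)) := by
    intro σ
    have hmσ := hm0 σ
    simp only [hQ]
    rw [Real.log_mul hfac.ne' (by positivity), Real.log_pow, Real.log_mul (by positivity)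
      (by positivity), Real.log_mul (by positivity) (by positivity), Real.log_exp,
      Real.log_mul (by positivity) (by positivity), Real.log_mul (by norm_num) (by positivity),
      Real.log_pow, Real.log_pow]
    have h1 : Real.log (N.factorial : ℝ) ≤ N * Real.log N := by
      have h2 : (N.factorial : ℝ) ≤ (N : ℝ) ^ N := by exact_mod_cast Nat.factorial_le_pow N
      have h3 := Real.log_le_log hfac h2
      rwa [Real.log_pow] at h3
    have h4 : Real.log 2 ≤ 1 := by
      have := Real.log_two_lt_d9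
      linarith
    have h5 : (0 : ℝ) ≤ N := by positivity
    have h6 : (N : ℝ) * (A * Real.log p + G + (Real.log 2 + Real.log (m σ) + M * Real.log (m σ))) ≤
        N * (A * Real.log p + G + 1 + (1 + M) * Real.log (m σ)) := by
      apply mul_le_mul_of_nonneg_left _ h5
      linarith
    linarith
  have hsum : ∑ σ : K →+* ℂ, Real.log (Q σ) ≤ Module.finrank ℚ K * (N * Real.log N) +
      N * (Module.finrank ℚ K * (A * Real.log p + G + 1) + (1 + M) * h) := by
    refine (sum_le_sum fun σ _ => hlogQ σ).trans ?_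
    rw [sum_add_distrib, sum_const, ← mul_sum, sum_add_distrib, sum_const, ← mul_sum, card_univ,
      NumberField.Embeddings.card, nsmul_eq_mul, nsmul_eq_mul]
    have h1 : ∑ σ : K →+* ℂ, Real.log (m σ) ≤ h := by
      rw [← Real.log_prod (fun σ _ => (hm0 σ).ne')]
      have h2 := Real.log_le_log (prod_pos fun σ _ => hm0 σ) hprod
      rwa [Real.log_exp] at h2
    have h2 : (1 + (M : ℝ)) * ∑ σ : K →+* ℂ, Real.log (m σ) ≤ (1 + M) * h :=
      mul_le_mul_of_nonneg_left h1 (by positivity)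
    have h3 : (0 : ℝ) ≤ N := by positivity
    refine add_le_add le_rfl (mul_le_mul_of_nonneg_left ?_ h3)
    exact add_le_add le_rfl h2
  have hNr : (0 : ℝ) < N := by exact_mod_cast hNpos
  have hhalf : ((N * (N - 1) / 2 : ℕ) : ℝ) = N * (N - 1) / 2 := by
    rw [Nat.cast_div (even_iff_two_dvd.mp (Nat.even_mul_pred_self N)) (by norm_num)]
    push_cast [Nat.cast_sub (by omega : 1 ≤ N)]
    ring
  rw [hhalf, hlogY] at hlog
  have hfin : (N : ℝ) * ((N - 1) / 2) ≤ N * (Module.finrank ℚ K * Real.log N +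
      Module.finrank ℚ K * A * Real.log p + (Module.finrank ℚ K + 2) * G +
      Module.finrank ℚ K + h * (1 + M) + A + L * (18 * G + 1)) := by
    have e : (N : ℝ) * (Module.finrank ℚ K * Real.log N +
      Module.finrank ℚ K * A * Real.log p + (Module.finrank ℚ K + 2) * G +
      Module.finrank ℚ K + h * (1 + M) + A + L * (18 * G + 1)) =
      (Module.finrank ℚ K * (N * Real.log N) +
      N * (Module.finrank ℚ K * (A * Real.log p + G + 1) + (1 + M) * h)) +
      N * (2 * G + A + L * (18 * G + 1)) := by ring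
    have e2 : (N : ℝ) * ((N - 1) / 2) = N * (N - 1) / 2 := by ring
    rw [e, e2]
    exact hlog.trans (add_le_add hsum le_rfl)
  have hfin2 := le_of_mul_le_mul_left hfin hNr
  have hNc : (N : ℝ) = A * L := by rw [hN]; push_cast; ring
  have hMc : (M : ℝ) = L * (S + L) := by rw [hM]; push_cast; ring
  rw [hNc, hMc] at hfin2
  linarith

end Pool.Agent.R623.AF
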