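import Pool.Agent.R623.AF.Stm
import Pool.Agent.R623.AF.ARI

set_option autoImplicit false

namespace Pool.Agent.R623.AF2

open NumberField IsDedekindDomain Finset

open Pool.Agent.R623.AF

set_option maxHeartbeats 1000000 in
theorem ARI2 (hSCH : S_SCH) (hZER : S_ZER) (K : Type) [Field K] [NumberField K] (x y : K)
    (p k A L R S : ℕ) (h : ℝ) (σ₀ : K →+* ℂ) (Λ : ℂ) (hp : p.Prime) (hx : x ≠ 0) (hy : y ≠ 0)
    (hs : x + y ≠ 0) (hk : 0 < k) (hkp : k < p) (hA : 1 ≤ A) (hL : 1 ≤ L) (hSLp : S + L ≤ p)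
    (hLA : L * (A - 1) < R * S)
    (hint : ∀ i j : ℕ, i + j ≤ L * (S + L) → IsIntegral ℤ ((x + y) * x ^ i * y ^ j))
    (hprod : ∏ σ : K →+* ℂ, max ‖σ x‖ ‖σ y‖ ≤ Real.exp h)
    (hexp : -(σ₀ y) / σ₀ x = Complex.exp (2 * Real.pi * Complex.I * k / p + Λ / p))
    (hΛ : ‖Λ‖ ≤ Real.exp (-(A * L : ℝ)))
    (hrou : ∀ e, 0 < e → e < L → (-(σ₀ y) / σ₀ x) ^ e ≠ 1) :
    ((A * L : ℝ) - 1) / 2 ≤ Module.finrank ℚ K * Real.log (A * L) +
      Module.finrank ℚ K * A * Real.log p + (Module.finrank ℚ K + 2) * (R + S + L) +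
      Module.finrank ℚ K + h * (1 + L * (S + L)) + A + L * (18 * (R + S + L) + 1) := by
  classical
  have hp0 : 0 < p := hp.pos
  have hpr : (0 : ℝ) < p := by exact_mod_cast hp0
  set α : ℂ := -(σ₀ y) / σ₀ x with hα
  have hx0 : σ₀ x ≠ 0 := (map_ne_zero σ₀).2 hx
  have hy0 : σ₀ y ≠ 0 := (map_ne_zero σ₀).2 hy
  have hα0 : α ≠ 0 := div_ne_zero (neg_ne_zero.2 hy0) hx0
  have hcop : Nat.Coprime k p := by
    rw [Nat.coprime_comm]
    exact (Nat.Prime.coprime_iff_not_dvd hp).2 fun hd => by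
      have := Nat.le_of_dvd hk hd
      omega
  set M : ℕ := L * (S + L) with hM
  set N : ℕ := A * L with hN
  have hNpos : 0 < N := Nat.mul_pos hA hL
  have hcard : Fintype.card (Fin A × Fin L) = N := by simp [hN]
  -- the points
  obtain ⟨f, hfT, hdet⟩ := exists_det_ne_zero (ι := Fin A × Fin L) (T := ℕ × ℕ)
    (fun τ i => (((τ.1 * p + τ.2 * k).choose (i.1 : ℕ) : ℕ) : ℂ) * α ^ (τ.2 * (i.2 : ℕ)))
    {τ | τ.1 < R ∧ τ.2 < S + L} (by
      intro c hc
      have := hZER A L R S p k α hcop (by omega) hp0 hα0 hrou hLA (fun i l => c (i, l)) (by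
        intro r s hr hs
        have := hc (r, s) ⟨hr, hs⟩
        rw [← this, Fintype.sum_prod_type])
      ext ⟨i, l⟩
      exact congrFun (congrFun this i) l)
  set E0 : Matrix (Fin A × Fin L) (Fin A × Fin L) ℂ := Matrix.of fun i i' =>
    ((((f i').1 * p + (f i').2 * k).choose (i.1 : ℕ) : ℕ) : ℂ) * α ^ ((f i').2 * (i.2 : ℕ))
    with hE0
  have hf1 : ∀ i, (f i).1 < R := fun i => (hfT i).1
  have hf2 : ∀ i, (f i).2 < S + L := fun i => (hfT i).2
  have hls : ∀ (i i' : Fin A × Fin L), (i.2 : ℕ) * (f i').2 ≤ M := fun i i' =>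
    Nat.mul_le_mul i.2.2.le (hf2 i').le
  set E : Matrix (Fin A × Fin L) (Fin A × Fin L) K := Mat x y p k A L M f with hE
  -- the determinant at the distinguished place
  have hdet0 : σ₀ E.det = (∏ _i' : Fin A × Fin L, (σ₀ (x + y) * σ₀ x ^ M)) * E0.det := by
    rw [← Matrix.det_mul_row, RingHom.map_det]
    congr 1
    ext i i'
    simp only [RingHom.mapMatrix_apply, Matrix.map_apply, hE, Mat, Matrix.of_apply, hE0, map_mul,
      map_natCast, map_pow, map_neg]
    have h1 : σ₀ x ^ (M - (i.2 : ℕ) * (f i').2) * (-(σ₀ y)) ^ ((i.2 : ℕ) * (f i').2) =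
        σ₀ x ^ M * α ^ ((f i').2 * (i.2 : ℕ)) := by
      rw [hα, mul_comm (f i').2, div_pow, ← mul_div_assoc, eq_div_iff (pow_ne_zero _ hx0)]
      rw [mul_right_comm, ← pow_add, Nat.sub_add_cancel (hls i i')]
    linear_combination ((((f i').1 * p + (f i').2 * k).choose (i.1 : ℕ) : ℕ) : ℂ) * σ₀ (x + y) * h1
  have hEdet : E.det ≠ 0 := by
    intro h0
    rw [h0, map_zero] at hdet0
    have h1 : (∏ _i' : Fin A × Fin L, (σ₀ (x + y) * σ₀ x ^ M)) ≠ 0 :=
      prod_ne_zero_iff.2 fun _ _ => mul_ne_zero ((map_ne_zero σ₀).2 hs) (pow_ne_zero _ hx0)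
    exact mul_ne_zero h1 hdet hdet0.symm
  have hEint : IsIntegral ℤ E.det := by
    refine IsIntegral.det fun i i' => ?_
    simp only [hE, Mat, Matrix.of_apply]
    refine IsIntegral.mul ?_ ?_
    · have h1 := isIntegral_algebraMap (R := ℤ) (A := K)
        (x := ((((f i').1 * p + (f i').2 * k).choose (i.1 : ℕ) : ℕ) : ℤ))
      simpa using h1
    · have h1 := hint (M - (i.2 : ℕ) * (f i').2) ((i.2 : ℕ) * (f i').2) (by
        have := hls i i'; omega)
      have h2 : (x + y) * x ^ (M - (i.2 : ℕ) * (f i').2) * (-y) ^ ((i.2 : ℕ) * (f i').2) =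
          (-1) ^ ((i.2 : ℕ) * (f i').2) * ((x + y) * x ^ (M - (i.2 : ℕ) * (f i').2) *
            y ^ ((i.2 : ℕ) * (f i').2)) := by
        rw [neg_pow y]; ring
      rw [h2]
      exact ((isIntegral_one.neg).pow _).mul h1
  have hone := one_le_prod hEint hEdet
  -- notation
  set m : (K →+* ℂ) → ℝ := fun σ => max ‖σ x‖ ‖σ y‖ with hm
  have hm1 : ∀ σ, 0 < m σ := fun σ =>
    lt_of_lt_of_le (norm_pos_iff.2 ((map_ne_zero σ).2 hx)) (le_max_left _ _)
  have hmx : ∀ σ, ‖σ x‖ ≤ m σ := fun σ => le_max_left _ _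
  have hmy : ∀ σ, ‖σ y‖ ≤ m σ := fun σ => le_max_right _ _
  have hms : ∀ σ, ‖σ (x + y)‖ ≤ 2 * m σ := fun σ => by
    rw [map_add]
    refine (norm_add_le _ _).trans ?_
    have := hmx σ
    have := hmy σ
    linarith
  set G : ℝ := R + S + L with hG
  have hG0 : 0 ≤ G := by positivity
  have ht : ∀ i', (((f i').1 * p + (f i').2 * k : ℕ) : ℝ) ≤ G * p := by
    intro i'
    have h1 : ((f i').1 : ℝ) ≤ R := by exact_mod_cast (hf1 i').le
    have h2 : ((f i').2 : ℝ) ≤ S + L := by exact_mod_cast (hf2 i').le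
    have h3 : (k : ℝ) ≤ p := by exact_mod_cast hkp.le
    push_cast
    calc ((f i').1 : ℝ) * p + (f i').2 * k ≤ R * p + (S + L) * p := by
          apply add_le_add
          · exact mul_le_mul_of_nonneg_right h1 hpr.le
          · exact mul_le_mul h2 h3 (by positivity) (by positivity)
      _ = G * p := by rw [hG]; ring
  -- bound at all places
  have hall : ∀ σ : K →+* ℂ, ‖σ E.det‖ ≤
      N.factorial * ((p : ℝ) ^ A * Real.exp G * (2 * m σ * m σ ^ M)) ^ N := by
    intro σ
    have h1 := norm_det_le_prod (E.map σ) ((p : ℝ) ^ A * Real.exp G * (2 * m σ * m σ ^ M)) (by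
      intro i i'
      simp only [Matrix.map_apply, hE, Mat, Matrix.of_apply, map_mul, map_natCast, map_pow,
        map_neg, norm_mul, norm_pow, norm_neg, Complex.norm_natCast]
      have h2 := choose_le (j := (i.1 : ℕ)) (A := A) hp0 i.1.2.le (ht i')
      apply mul_le_mul h2 _ (by positivity) (by positivity)
      rw [mul_assoc]
      apply mul_le_mul (hms σ) _ (by positivity) (by have := hm1 σ; positivity)
      calc ‖σ x‖ ^ (M - (i.2 : ℕ) * (f i').2) * ‖σ y‖ ^ ((i.2 : ℕ) * (f i').2)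
          ≤ m σ ^ (M - (i.2 : ℕ) * (f i').2) * m σ ^ ((i.2 : ℕ) * (f i').2) := by
            apply mul_le_mul (pow_le_pow_left₀ (norm_nonneg _) (hmx σ) _)
              (pow_le_pow_left₀ (norm_nonneg _) (hmy σ) _) (by positivity)
            have := hm1 σ
            positivity
        _ = m σ ^ M := by rw [← pow_add, Nat.sub_add_cancel (hls i i')])
    rw [hcard] at h1
    have h3 : σ E.det = (E.map σ).det := by
      rw [RingHom.map_det]; rfl
    rw [h3]; exact h1
  -- bound at the distinguished place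
  have hz : ‖σ₀ E.det‖ * Real.exp 1 ^ (N * (N - 1) / 2) ≤
      (2 * m σ₀ * m σ₀ ^ M) ^ N * (N.factorial * ((p : ℝ) ^ A * Real.exp (3 * G + A) *
        Real.exp (L * (18 * G + 1))) ^ N) := by
    set c : ℂ := 2 * Real.pi * Complex.I / p with hc
    have hcn : ‖c‖ = 2 * Real.pi / p := by
      rw [hc, norm_div, norm_mul, norm_mul, Complex.norm_I, Complex.norm_natCast, mul_one]
      rw [Complex.norm_real, Real.norm_of_nonneg Real.pi_pos.le]
      simp
    have hZ0 : (0 : ℝ) ≤ Real.exp (-(A * L : ℝ)) := (Real.exp_pos _).le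
    have h1 := hSCH (Fin A × Fin L) (fun i => (i.1 : ℕ)) (fun i => (i.2 : ℕ))
      (fun i' => (f i').1 * p + (f i').2 * k) (fun i' => ((f i').2 : ℂ) * Λ / p) c p
      ((R + S + L) * p) (Real.exp (-(A * L : ℝ))) hp0 hZ0 (by
        intro i'
        have := ht i'
        rw [hG] at this
        exact_mod_cast this) (by
        intro i'
        rw [norm_div, norm_mul, Complex.norm_natCast, Complex.norm_natCast]
        have h2 : ((f i').2 : ℝ) ≤ p := by
          have := hf2 i'
          exact_mod_cast (by omega : (f i').2 ≤ p)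
        calc ((f i').2 : ℝ) * ‖Λ‖ / p ≤ p * ‖Λ‖ / p := by gcongr
          _ = ‖Λ‖ := by field_simp
          _ ≤ _ := hΛ)
    rw [hcard] at h1
    have hEE : (Matrix.of fun i i' : Fin A × Fin L =>
        ((((f i').1 * p + (f i').2 * k).choose (i.1 : ℕ) : ℕ) : ℂ) *
        Complex.exp (((i.2 : ℕ) : ℂ) * (c * (((f i').1 * p + (f i').2 * k : ℕ) : ℂ) +
          ((f i').2 : ℂ) * Λ / p))) = E0 := by
      ext i i'
      simp only [hE0, Matrix.of_apply]
      congr 1
      rw [pow_mul, hexp, ← Complex.exp_nat_mul, ← Complex.exp_nat_mul]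
      rw [Complex.exp_eq_exp_iff_exists_int]
      refine ⟨(i.2 : ℕ) * (f i').1, ?_⟩
      have hpc : (p : ℂ) ≠ 0 := by exact_mod_cast hp0.ne'
      rw [hc]
      push_cast
      field_simp
      ring
    have hEE' : (Matrix.of fun i i' : Fin A × Fin L =>
        ((((f i').1 * p + (f i').2 * k).choose ((fun i : Fin A × Fin L => (i.1 : ℕ)) i) : ℕ) : ℂ) *
        Complex.exp ((((fun i : Fin A × Fin L => (i.2 : ℕ)) i : ℕ) : ℂ) *
          (c * (((fun i' : Fin A × Fin L => (f i').1 * p + (f i').2 * k) i' : ℕ) : ℂ) +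
          (fun i' : Fin A × Fin L => ((f i').2 : ℂ) * Λ / p) i'))) = E0 := hEE
    rw [hEE'] at h1
    have hZN : Real.exp 1 ^ N * Real.exp (-(A * L : ℝ)) = 1 := by
      rw [← Real.exp_nat_mul, ← Real.exp_add, hN]
      push_cast
      simp
    have he1 : Real.exp 1 ≤ 3 := by
      have := Real.exp_one_lt_d9
      linarith
    have he0 : 0 < Real.exp 1 := Real.exp_pos 1
    have hXG : (((R + S + L) * p : ℕ) : ℝ) = G * p := by rw [hG]; push_cast; ring
    have hrow : ∀ i : Fin A × Fin L, (p : ℝ) ^ (i.1 : ℕ) *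
        Real.exp ((Real.exp 1 * (((R + S + L) * p : ℕ) : ℝ) + ((i.1 : ℕ) : ℝ)) / p) *
        Real.exp (((i.2 : ℕ) : ℝ) * (‖c‖ * (Real.exp 1 * (((R + S + L) * p : ℕ) : ℝ)) +
          Real.exp 1 ^ N * Real.exp (-(A * L : ℝ)))) ≤
        (p : ℝ) ^ A * Real.exp (3 * G + A) * Real.exp (L * (18 * G + 1)) := by
      intro i
      rw [hZN, hXG, hcn]
      have hp1 : (1 : ℝ) ≤ p := by exact_mod_cast hp0
      apply mul_le_mul
      · apply mul_le_mul
        · exact pow_le_pow_right₀ hp1 i.1.2.le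
        · apply Real.exp_le_exp.2
          rw [div_le_iff₀ hpr]
          have h2 : ((i.1 : ℕ) : ℝ) ≤ A := by exact_mod_cast i.1.2.le
          have h3 : (A : ℝ) ≤ A * p := le_mul_of_one_le_right (by positivity) hp1
          have h4 : Real.exp 1 * (G * p) ≤ 3 * (G * p) :=
            mul_le_mul_of_nonneg_right he1 (by positivity)
          nlinarith
        · positivity
        · positivity
      · apply Real.exp_le_exp.2
        have h2 : ((i.2 : ℕ) : ℝ) ≤ L := by exact_mod_cast i.2.2.le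
        have h3 : 2 * Real.pi / p * (Real.exp 1 * (G * p)) ≤ 18 * G := by
          have h4 : 2 * Real.pi / p * (Real.exp 1 * (G * p)) = (2 * Real.pi * Real.exp 1) * G := by
            field_simp
          rw [h4]
          apply mul_le_mul_of_nonneg_right _ hG0
          have h5 := Real.pi_lt_d2
          have h6 := Real.exp_one_lt_d9
          have h7 := Real.pi_pos
          nlinarith
        have h8 : 0 ≤ 2 * Real.pi / p * (Real.exp 1 * (G * p)) := by positivity
        apply mul_le_mul h2 (by linarith) (by linarith) (by positivity)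
      · positivity
      · positivity
    have h2 : ‖E0.det‖ * Real.exp 1 ^ (N * (N - 1) / 2) ≤
        N.factorial * ((p : ℝ) ^ A * Real.exp (3 * G + A) * Real.exp (L * (18 * G + 1))) ^ N := by
      refine h1.trans ?_
      apply mul_le_mul_of_nonneg_left _ (by positivity)
      calc _ ≤ ∏ _i : Fin A × Fin L,
            ((p : ℝ) ^ A * Real.exp (3 * G + A) * Real.exp (L * (18 * G + 1))) :=
            prod_le_prod (fun i _ => by positivity) (fun i _ => hrow i)
        _ = _ := by rw [prod_const, card_univ, hcard]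
    have h3 : ‖σ₀ E.det‖ = (‖σ₀ (x + y)‖ * ‖σ₀ x‖ ^ M) ^ N * ‖E0.det‖ := by
      rw [hdet0, norm_mul, norm_prod, prod_const, card_univ, hcard, norm_mul, norm_pow]
    rw [h3, mul_assoc]
    apply mul_le_mul _ h2 (by positivity) (by have := hm1 σ₀; positivity)
    apply pow_le_pow_left₀ (by positivity)
    exact mul_le_mul (hms σ₀) (pow_le_pow_left₀ (norm_nonneg _) (hmx σ₀) _) (by positivity)
      (by have := hm1 σ₀; positivity)
  -- conclusion
  clear_value E M N
  set P : ℝ := (p : ℝ) ^ A with hP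
  have hP1 : 1 ≤ P := one_le_pow₀ (by exact_mod_cast hp0)
  have hP0 : 0 < P := by linarith
  set Q : (K →+* ℂ) → ℝ := fun σ => N.factorial * (P * Real.exp G * (2 * m σ * m σ ^ M)) ^ N
    with hQ
  have hm0 : ∀ σ, 0 < m σ := hm1
  have hfac : (0 : ℝ) < N.factorial := by exact_mod_cast Nat.factorial_pos N
  have hQ0 : ∀ σ, 0 < Q σ := fun σ => by
    have := hm0 σ
    simp only [hQ]
    positivity
  set Y : ℝ := Real.exp (2 * G + A) * Real.exp (L * (18 * G + 1)) with hY
  have hY0 : 0 < Y := by positivity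
  have hz' : ‖σ₀ E.det‖ * Real.exp 1 ^ (N * (N - 1) / 2) ≤ Q σ₀ * Y ^ N := by
    refine hz.trans (le_of_eq ?_)
    simp only [hQ, hY]
    have e : Real.exp (3 * G + A) = Real.exp G * Real.exp (2 * G + A) := by
      rw [← Real.exp_add]; ring_nf
    rw [e]
    simp only [mul_pow]
    ring
  have hF0 : (0 : ℝ) < Real.exp 1 ^ (N * (N - 1) / 2) := by positivity
  have hmain : Real.exp 1 ^ (N * (N - 1) / 2) ≤ (∏ σ, Q σ) * Y ^ N := by
    calc Real.exp 1 ^ (N * (N - 1) / 2)
        ≤ (∏ σ : K →+* ℂ, ‖σ E.det‖) * Real.exp 1 ^ (N * (N - 1) / 2) :=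
          le_mul_of_one_le_left hF0.le hone
      _ = (∏ σ ∈ univ.erase σ₀, ‖σ E.det‖) * (‖σ₀ E.det‖ * Real.exp 1 ^ (N * (N - 1) / 2)) := by
          rw [← mul_prod_erase univ (fun σ : K →+* ℂ => ‖σ E.det‖) (mem_univ σ₀)]; ring
      _ ≤ (∏ σ ∈ univ.erase σ₀, Q σ) * (Q σ₀ * Y ^ N) := by
          apply mul_le_mul _ hz' (by positivity) (prod_nonneg fun σ _ => (hQ0 σ).le)
          exact prod_le_prod (fun σ _ => norm_nonneg _) (fun σ _ => hall σ)
      _ = (∏ σ, Q σ) * Y ^ N := by
          rw [← mul_prod_erase univ Q (mem_univ σ₀)]; ring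
  have hlog := Real.log_le_log hF0 hmain
  rw [Real.log_pow, Real.log_exp, mul_one, Real.log_mul (prod_ne_zero_iff.2 fun σ _ => (hQ0 σ).ne')
    (pow_ne_zero _ hY0.ne'), Real.log_prod (fun σ _ => (hQ0 σ).ne'), Real.log_pow] at hlog
  have hlogY : Real.log Y = 2 * G + A + L * (18 * G + 1) := by
    rw [hY, Real.log_mul (Real.exp_pos _).ne' (Real.exp_pos _).ne', Real.log_exp, Real.log_exp]
  have hlogQ : ∀ σ, Real.log (Q σ) ≤ N * Real.log N + N * (A * Real.log p + G + 1 +
      (1 + M) * Real.log (m σ)) := by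
    intro σ
    have hmσ := hm0 σ
    simp only [hQ]
    rw [Real.log_mul hfac.ne' (by positivity), Real.log_pow, Real.log_mul (by positivity)
      (by positivity), Real.log_mul (by positivity) (by positivity), Real.log_exp,
      Real.log_mul (by positivity) (by positivity), Real.log_mul (by norm_num) (by positivity),
      Real.log_pow, Real.log_pow]
    have h1 : Real.log (N.factorial : ℝ) ≤ N * Real.log N := by
      have h2 : (N.factorial : ℝ) ≤ (N : ℝ) ^ N := by exact_mod_cast Nat.factorial_le_pow N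
      have h3 := Real.log_le_log hfac h2
      rwa [Real.log_pow] at h3
    have h4 : Real.log 2 ≤ 1 := by
      have := Real.log_two_lt_d9
      linarith
    have h5 : (0 : ℝ) ≤ N := by positivity
    have h6 : (N : ℝ) * (A * Real.log p + G + (Real.log 2 + Real.log (m σ) + M * Real.log (m σ))) ≤
        N * (A * Real.log p + G + 1 + (1 + M) * Real.log (m σ)) := by
      apply mul_le_mul_of_nonneg_left _ h5
      linarith
    linarith
  have hsum : ∑ σ : K →+* ℂ, Real.log (Q σ) ≤ Module.finrank ℚ K * (N * Real.log N) +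
      N * (Module.finrank ℚ K * (A * Real.log p + G + 1) + (1 + M) * h) := by
    refine (sum_le_sum fun σ _ => hlogQ σ).trans ?_
    rw [sum_add_distrib, sum_const, ← mul_sum, sum_add_distrib, sum_const, ← mul_sum, card_univ,
      NumberField.Embeddings.card, nsmul_eq_mul, nsmul_eq_mul]
    have h1 : ∑ σ : K →+* ℂ, Real.log (m σ) ≤ h := by
      rw [← Real.log_prod (fun σ _ => (hm0 σ).ne')]
      have h2 := Real.log_le_log (prod_pos fun σ _ => hm0 σ) hprod
      rwa [Real.log_exp] at h2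
    have h2 : (1 + (M : ℝ)) * ∑ σ : K →+* ℂ, Real.log (m σ) ≤ (1 + M) * h :=
      mul_le_mul_of_nonneg_left h1 (by positivity)
    have h3 : (0 : ℝ) ≤ N := by positivity
    refine add_le_add le_rfl (mul_le_mul_of_nonneg_left ?_ h3)
    exact add_le_add le_rfl h2
  have hNr : (0 : ℝ) < N := by exact_mod_cast hNpos
  have hhalf : ((N * (N - 1) / 2 : ℕ) : ℝ) = N * (N - 1) / 2 := by
    rw [Nat.cast_div (even_iff_two_dvd.mp (Nat.even_mul_pred_self N)) (by norm_num)]
    push_cast [Nat.cast_sub (by omega : 1 ≤ N)]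
    ring
  rw [hhalf, hlogY] at hlog
  have hfin : (N : ℝ) * ((N - 1) / 2) ≤ N * (Module.finrank ℚ K * Real.log N +
      Module.finrank ℚ K * A * Real.log p + (Module.finrank ℚ K + 2) * G +
      Module.finrank ℚ K + h * (1 + M) + A + L * (18 * G + 1)) := by
    have e : (N : ℝ) * (Module.finrank ℚ K * Real.log N +
      Module.finrank ℚ K * A * Real.log p + (Module.finrank ℚ K + 2) * G +
      Module.finrank ℚ K + h * (1 + M) + A + L * (18 * G + 1)) =
      (Module.finrank ℚ K * (N * Real.log N) +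
      N * (Module.finrank ℚ K * (A * Real.log p + G + 1) + (1 + M) * h)) +
      N * (2 * G + A + L * (18 * G + 1)) := by ring
    have e2 : (N : ℝ) * ((N - 1) / 2) = N * (N - 1) / 2 := by ring
    rw [e, e2]
    exact hlog.trans (add_le_add hsum le_rfl)
  have hfin2 := le_of_mul_le_mul_left hfin hNr
  have hNc : (N : ℝ) = A * L := by rw [hN]; push_cast; ring
  have hMc : (M : ℝ) = L * (S + L) := by rw [hM]; push_cast; ring
  rw [hNc, hMc] at hfin2
  linarith

end Pool.Agent.R623.AF2
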