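import Pool.Agent.R623.AF.Stm

/-!
# Theorem B: norms of the three numbers of a solution (project AF, helper623)
-/

set_option autoImplicit false

namespace Pool.Agent.R623.AF

open NumberField IsDedekindDomain

/-- LIO2: LIO with `max ‖σ x‖ ‖σ y‖` instead of `max 1 (max ‖σ x‖ ‖σ y‖)`. -/
def S_LIO2 : Prop := ∀ (K : Type) [Field K] [NumberField K] (x y : K) (p : ℕ) (h : ℝ)
  (σ₀ : K →+* ℂ) (Λ : ℂ), 1 ≤ p → x ≠ 0 → y ≠ 0 → x + y ≠ 0 → IsIntegral ℤ (x + y) →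
  ∏ σ : K →+* ℂ, max ‖σ x‖ ‖σ y‖ ≤ Real.exp h →
  -(σ₀ y) / σ₀ x = Complex.exp (Λ / p) → ‖Λ‖ ≤ 1 →
  Real.exp (-(h + Module.finrank ℚ K + 1)) ≤ ‖Λ‖

/-- BK2: the lower bound for `|(-y/x)^p - 1|` for algebraic integers, with the product of the
`max ‖σ x‖ ‖σ y‖`. -/
def S_BK2 : Prop := ∀ (K : Type) [Field K] [NumberField K] (x y : K) (p L h : ℕ) (σ₀ : K →+* ℂ),
  p.Prime → 3 ≤ p → x ≠ 0 → y ≠ 0 → IsIntegral ℤ x → IsIntegral ℤ y → x ^ p + y ^ p ≠ 0 → 1 ≤ h →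
  16 * Module.finrank ℚ K * Real.log p ≤ L → 16 * Module.finrank ℚ K ≤ L → 578 * L ≤ p →
  ∏ σ : K →+* ℂ, max ‖σ x‖ ‖σ y‖ ≤ Real.exp h →
  Real.exp (-(339264 * h * L ^ 2 + 1 : ℝ)) < ‖(-(σ₀ y) / σ₀ x) ^ p - 1‖

/-- NRM: the norm of each of the three numbers of a solution is almost maximal. -/
def S_NRM : Prop := ∀ d : ℕ, ∃ (C : ℝ) (B : ℕ), 0 < C ∧ ∀ (K : Type) [Field K] [NumberField K],
  Module.finrank ℚ K = d → ∀ p : ℕ, p.Prime → B < p → ∀ a b c : K, IsIntegral ℤ a →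
  IsIntegral ℤ b → IsIntegral ℤ c → a ≠ 0 → b ≠ 0 → c ≠ 0 → a ^ p + b ^ p + c ^ p = 0 →
  ∏ σ : K →+* ℂ, max ‖σ a‖ (max ‖σ b‖ ‖σ c‖) ≤
    Real.exp 2 * (∏ σ : K →+* ℂ, ‖σ c‖) ^ (1 + C * Real.log p ^ 2 / p)

end Pool.Agent.R623.AF
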