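import Pool.Agent.R623.AF.Stm2
import Pool.Agent.R711.AF_KRO

set_option autoImplicit false

namespace Pool.Agent.R623.AF

open NumberField IsDedekindDomain

/-- conjugates of the integers of degree `d` all of whose conjugates are at most two -/
theorem conj_finite (d : ℕ) : ∃ U : Set ℂ, U.Finite ∧ ∀ (K : Type) [Field K] [NumberField K],
    Module.finrank ℚ K = d → ∀ x : K, IsIntegral ℤ x → (∀ φ : K →+* ℂ, ‖φ x‖ ≤ 2) →
    ∀ φ : K →+* ℂ, φ x ∈ U := by
  classical
  let C := Nat.ceil (max (2 : ℝ) 1 ^ d * d.choose (d / 2))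
  have hfin := Polynomial.bUnion_roots_finite (algebraMap ℤ ℂ) d (Set.finite_Icc (-C : ℤ) C)
  refine ⟨_, hfin, ?_⟩
  intro K _ _ hd x hx hle φ
  simp_rw [Set.mem_iUnion]
  have h_map_ℚ_minpoly := minpoly.isIntegrallyClosed_eq_field_fractions' ℚ hx
  have hroot : Polynomial.aeval (φ x) (minpoly ℤ x) = 0 := by
    have h1 := Polynomial.aeval_algHom_apply (φ.toIntAlgHom) x (minpoly ℤ x)
    rw [minpoly.aeval, map_zero] at h1
    exact h1
  refine ⟨_, ⟨?_, fun i => ?_⟩, Polynomial.mem_rootSet.2 ⟨minpoly.ne_zero hx, hroot⟩⟩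
  · rw [← (minpoly.monic hx).natDegree_map (algebraMap ℤ ℚ), ← h_map_ℚ_minpoly, ← hd]
    exact minpoly.natDegree_le x
  rw [Set.mem_Icc, ← abs_le, ← @Int.cast_le ℝ]
  refine (Eq.trans_le ?_ <| (NumberField.Embeddings.coeff_bdd_of_norm_le (K := K) (A := ℂ)
    hle i).trans ?_).trans (Nat.le_ceil _)
  · rw [h_map_ℚ_minpoly, Polynomial.coeff_map, eq_intCast, Int.norm_cast_rat, Int.norm_eq_abs,
      Int.cast_abs]
  · rw [hd]

open KROAux in
theorem KROU : S_KROU := by
  classical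
  intro d
  obtain ⟨U, hU, hUm⟩ := conj_finite d
  set W : Set ℝ := (fun q : ℂ × ℂ => max 1 (max ‖q.1‖ ‖q.2‖)) '' (U ×ˢ U) with hW
  have hWf : W.Finite := (hU.prod hU).image _
  set V : Set ℝ := (fun f : Fin d → ℝ => ∏ i, f i) '' (Set.pi Set.univ fun _ => W) with hV
  have hVf : V.Finite := (Set.Finite.pi' fun _ => hWf).image _ |>.subset (by
    rintro _ ⟨f, hf, rfl⟩
    exact ⟨f, fun i => hf i (Set.mem_univ i), rfl⟩)
  have hV2 : (insert (2 : ℝ) (V ∩ {v | 1 < v})).Finite := (hVf.inter_of_left _).insert _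
  obtain ⟨m, hm, hmin⟩ := hV2.exists_minimal (Set.insert_nonempty _ _)
  have hm1 : 1 < m := by
    rcases hm with rfl | hq
    · norm_num
    · exact hq.2
  have hle : ∀ v ∈ insert (2 : ℝ) (V ∩ {v | 1 < v}), m ≤ v := by
    intro v hv
    rcases le_total m v with h | h
    · exact h
    · exact hmin hv h
  refine ⟨m - 1, by linarith, ?_⟩
  intro K _ _ hd hK p _ x y hx hy hx0 hy0 h
  have hgt := root_unity K hK p x y hx hy hx0 hy0 h
  have e1 : ∏ σ : K →+* ℂ, max 1 (max ‖σ x‖ ‖σ y‖) = PP K (x, y) := rfl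
  rw [e1]
  by_cases hc : PP K (x, y) < 2
  · have hx2 : ∀ φ : K →+* ℂ, ‖φ x‖ ≤ 2 := fun φ => by
      refine le_trans ?_ hc.le
      refine le_trans ?_ (factor_le K (x, y) φ)
      exact le_trans (le_max_left _ _) (le_max_right _ _)
    have hy2 : ∀ φ : K →+* ℂ, ‖φ y‖ ≤ 2 := fun φ => by
      refine le_trans ?_ hc.le
      refine le_trans ?_ (factor_le K (x, y) φ)
      exact le_trans (le_max_right _ _) (le_max_right _ _)
    have hcard : Fintype.card (K →+* ℂ) = d := by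
      rw [NumberField.Embeddings.card, hd]
    have e := Fintype.equivFinOfCardEq hcard
    have hmem : PP K (x, y) ∈ insert (2 : ℝ) (V ∩ {v | 1 < v}) := by
      right
      refine ⟨⟨fun i => max 1 (max ‖(e.symm i) x‖ ‖(e.symm i) y‖), ?_, ?_⟩, hgt⟩
      · intro i _
        exact ⟨((e.symm i) x, (e.symm i) y), ⟨hUm K hd x hx hx2 _, hUm K hd y hy hy2 _⟩, rfl⟩
      · exact Equiv.prod_comp e.symm (fun σ : K →+* ℂ => max 1 (max ‖σ x‖ ‖σ y‖))
    have := hle _ hmem
    linarith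
  · have h2 := hle 2 (Set.mem_insert _ _)
    have h3 := not_lt.1 hc
    linarith

end Pool.Agent.R623.AF
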