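import Pool.Agent.R623.AF.Stm2
import Pool.Agent.R478.AF_MAIN

set_option autoImplicit false

namespace Pool.Agent.R623.AF

open NumberField IsDedekindDomain

open MainPiece in
theorem MAINU (hBK : S_BK) (hLOC : S_LOC) (hDEN : S_DEN) (hKRO : S_KROU) : S_MAINU := by
  intro d
  rcases Nat.eq_zero_or_pos d with h0 | hd1
  · refine ⟨0, fun K _ _ hd => ?_⟩
    have : 0 < Module.finrank ℚ K := Module.finrank_pos
    omega
  obtain ⟨δ, hδ, hkro'⟩ := hKRO d
  have hd1' : (1 : ℝ) ≤ d := by exact_mod_cast hd1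
  have hlog : 0 < Real.log (1 + δ) := Real.log_pos (by linarith)
  obtain ⟨q, hq⟩ : ∃ q : ℝ, q = 1 / Real.log (1 + δ) := ⟨_, rfl⟩
  have hq0 : 0 < q := by rw [hq]; positivity
  obtain ⟨B, hB⟩ := growth d (848160 * d + (2 * d + 3) + 339264 * d * q) (by positivity)
  refine ⟨B, fun K _ _ hd' hK p hp hBp x y hx hy hxy hall => ?_⟩
  have hkro := hkro' K hd' hK
  have hd : d = Module.finrank ℚ K := hd'.symm
  have hg := hB p hBp
  obtain ⟨L, hL⟩ : ∃ L : ℕ, L = ⌈16 * (d : ℝ) * Real.log p⌉₊ + 16 * d := ⟨_, rfl⟩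
  rw [← hL] at hg
  have hL2 : (0 : ℝ) ≤ (L : ℝ) ^ 2 := by positivity
  have hdL : (L : ℝ) ^ 2 ≤ d * (L : ℝ) ^ 2 := by nlinarith
  have hqL : 0 ≤ (d : ℝ) * q * (L : ℝ) ^ 2 := by positivity
  have hqd : 0 ≤ (d : ℝ) * q := by positivity
  have hp_a : 2 * d + 3 ≤ p := by
    have : (2 * d + 3 : ℝ) ≤ p := by nlinarith
    exact_mod_cast this
  have hp_b : 578 * L ^ 2 + d + 1 ≤ p := by
    have : (578 * (L : ℝ) ^ 2 + d + 1 : ℝ) ≤ p := by nlinarith
    exact_mod_cast this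
  have hp_c : 578 * L ≤ p := by
    have : L ≤ L ^ 2 := by nlinarith [Nat.zero_le L, Nat.le_self_pow (n := 2) (by norm_num) L]
    omega
  have hp_e : (d : ℝ) * (848160 * (L : ℝ) ^ 2 + 2) ≤ p := by nlinarith
  have hp_f : (339264 * (L : ℝ) ^ 2 + 1) * d * q ≤ p := by nlinarith
  have h16 : 16 * (Module.finrank ℚ K : ℝ) * Real.log p ≤ L := by
    rw [← hd, hL]
    push_cast
    have := Nat.le_ceil (16 * (d : ℝ) * Real.log p)
    have : (0 : ℝ) ≤ 16 * d := by positivity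
    linarith
  have h16' : 16 * Module.finrank ℚ K ≤ L := by rw [← hd, hL]; omega
  have hyx : y ^ p + x ^ p = 1 := by rw [add_comm]; exact hxy
  have hall' : ∀ v : HeightOneSpectrum (𝓞 K), v.valuation K (y + x) ≤ 1 := by
    intro v; rw [add_comm]; exact hall v
  have hint : ∀ i j : ℕ, i + j ≤ L * (578 * L) → IsIntegral ℤ ((x + y) * x ^ i * y ^ j) := by
    intro i j hij
    refine isInt_of_val K _ fun v => ?_
    refine (hLOC K v p x y hp (by omega) hxy hx hy (hall v)).1 i j ?_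
    have : L * (578 * L) = 578 * L ^ 2 := by ring
    omega
  have hint' : ∀ i j : ℕ, i + j ≤ L * (578 * L) → IsIntegral ℤ ((y + x) * y ^ i * x ^ j) := by
    intro i j hij
    have := hint j i (by omega)
    have h2 : (y + x) * y ^ i * x ^ j = (x + y) * x ^ j * y ^ i := by ring
    rw [h2]; exact this
  -- the height
  obtain ⟨P, hP⟩ : ∃ P : ℝ, P = ∏ σ : K →+* ℂ, max 1 (max ‖σ x‖ ‖σ y‖) := ⟨_, rfl⟩
  have hP' : P = ∏ σ : K →+* ℂ, max 1 (max ‖σ y‖ ‖σ x‖) := by
    rw [hP]; exact Finset.prod_congr rfl fun σ _ => by rw [max_comm ‖σ x‖]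
  have hne : Nonempty (K →+* ℂ) := by
    rw [← Fintype.card_pos_iff, NumberField.Embeddings.card]
    exact Module.finrank_pos
  obtain ⟨σ₀, -, hσ₀⟩ := Finset.exists_max_image (Finset.univ : Finset (K →+* ℂ))
    (fun σ => max 1 (max ‖σ x‖ ‖σ y‖)) Finset.univ_nonempty
  obtain ⟨m, hm⟩ : ∃ m : ℝ, m = max 1 (max ‖σ₀ x‖ ‖σ₀ y‖) := ⟨_, rfl⟩
  have hm1 : 1 ≤ m := by rw [hm]; exact le_max_left _ _
  have hPd : P ≤ m ^ d := by
    rw [hP]
    calc ∏ σ : K →+* ℂ, max 1 (max ‖σ x‖ ‖σ y‖) ≤ ∏ _σ : K →+* ℂ, m := by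
          refine Finset.prod_le_prod (fun σ _ => by positivity) fun σ hσ => ?_
          rw [hm]; exact hσ₀ σ hσ
      _ = m ^ d := by
          rw [Finset.prod_const, Finset.card_univ, NumberField.Embeddings.card, hd]
  have hmain : ∀ h : ℕ, 1 ≤ h → P ≤ Real.exp h → 1 < P →
      p * Real.log P < d * (339264 * h * (L : ℝ) ^ 2 + 1) := by
    intro h hh hPh hP1
    have hm1' : 1 < m := by
      rcases hm1.lt_or_eq with h0 | h0
      · exact h0
      · rw [← h0, one_pow] at hPd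
        exact absurd (hPd.trans_lt hP1) (lt_irrefl _)
    have hlP : Real.log P ≤ d * Real.log m := by
      rw [← Real.log_pow]
      exact Real.log_le_log (by linarith) hPd
    have hk : p * Real.log m < 339264 * h * (L : ℝ) ^ 2 + 1 := by
      have hmax : m = max ‖σ₀ x‖ ‖σ₀ y‖ := by
        rcases max_choice 1 (max ‖σ₀ x‖ ‖σ₀ y‖) with h0 | h0
        · rw [h0] at hm; linarith
        · rw [h0] at hm; exact hm
      rcases max_choice ‖σ₀ x‖ ‖σ₀ y‖ with h0 | h0
      · rw [hmax, h0]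
        exact key hBK K x y p L h σ₀ hp (by omega) hx hy hxy hh h16 h16' hp_c hint (hP ▸ hPh)
      · rw [hmax, h0]
        exact key hBK K y x p L h σ₀ hp (by omega) hy hx hyx hh h16 h16' hp_c hint' (hP' ▸ hPh)
    have hp0 : (0 : ℝ) ≤ p := Nat.cast_nonneg p
    calc p * Real.log P ≤ p * (d * Real.log m) := mul_le_mul_of_nonneg_left hlP hp0
      _ = d * (p * Real.log m) := by ring
      _ < _ := mul_lt_mul_of_pos_left hk (by linarith)
  rcases le_or_gt 2 P with hP2 | hP2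
  · -- P ≥ 2
    have hl2 : (0.69 : ℝ) < Real.log P := by
      have h1 := Real.log_two_gt_d9
      have h2 := Real.log_le_log (by norm_num) hP2
      linarith
    have h1 : 1 ≤ ⌈Real.log P⌉₊ := Nat.one_le_ceil_iff.2 (by linarith)
    have h2 : P ≤ Real.exp (⌈Real.log P⌉₊ : ℕ) := by
      rw [← Real.log_le_iff_le_exp (by linarith)]
      exact Nat.le_ceil _
    have h3 := hmain _ h1 h2 (by linarith)
    have h4 := Nat.ceil_lt_add_one (a := Real.log P) (by linarith)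
    have h5 : (⌈Real.log P⌉₊ : ℝ) ≤ 2.5 * Real.log P := by linarith
    have h6 : (d : ℝ) * (339264 * (⌈Real.log P⌉₊ : ℝ) * (L : ℝ) ^ 2 + 1) ≤
        (d * (848160 * (L : ℝ) ^ 2 + 2)) * Real.log P := by
      have h7 : 339264 * (⌈Real.log P⌉₊ : ℝ) * (L : ℝ) ^ 2 ≤ 339264 * (2.5 * Real.log P) * (L : ℝ) ^ 2 := by
        refine mul_le_mul_of_nonneg_right ?_ hL2
        linarith
      have h8 : 339264 * (⌈Real.log P⌉₊ : ℝ) * (L : ℝ) ^ 2 + 1 ≤ (848160 * (L : ℝ) ^ 2 + 2) * Real.log P := by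
        nlinarith
      calc (d : ℝ) * (339264 * (⌈Real.log P⌉₊ : ℝ) * (L : ℝ) ^ 2 + 1)
          ≤ d * ((848160 * (L : ℝ) ^ 2 + 2) * Real.log P) := mul_le_mul_of_nonneg_left h8 (by linarith)
        _ = _ := by ring
    have h9 : (d * (848160 * (L : ℝ) ^ 2 + 2)) * Real.log P ≤ p * Real.log P :=
      mul_le_mul_of_nonneg_right hp_e (by linarith)
    linarith
  · -- P < 2
    have hxi : IsIntegral ℤ x := isInt_of_val K x fun v =>
      val_le hLOC hDEN K x y p hp (by omega) hx hy hxy hall (hP ▸ hP2) v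
    have hyi : IsIntegral ℤ y := isInt_of_val K y fun v =>
      val_le hLOC hDEN K y x p hp (by omega) hy hx hyx hall' (hP' ▸ hP2) v
    have h1 := hkro p hp.pos x y hxi hyi hx hy hxy
    rw [← hP] at h1
    have h2 : P ≤ Real.exp (1 : ℕ) := by
      have := Real.add_one_le_exp (1 : ℝ)
      push_cast
      linarith
    have h3 := hmain 1 le_rfl h2 (by linarith)
    have h4 : Real.log (1 + δ) ≤ Real.log P := Real.log_le_log (by linarith) h1
    have h5 : (p : ℝ) * Real.log (1 + δ) < d * (339264 * (L : ℝ) ^ 2 + 1) := by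
      refine (mul_le_mul_of_nonneg_left h4 (Nat.cast_nonneg p)).trans_lt ?_
      push_cast at h3
      linarith
    have h6 : (339264 * (L : ℝ) ^ 2 + 1) * d * q * Real.log (1 + δ) ≤ p * Real.log (1 + δ) :=
      mul_le_mul_of_nonneg_right hp_f hlog.le
    have h7 : q * Real.log (1 + δ) = 1 := by rw [hq]; field_simp
    have h8 : (339264 * (L : ℝ) ^ 2 + 1) * d * q * Real.log (1 + δ) = (339264 * (L : ℝ) ^ 2 + 1) * d := by
      rw [mul_assoc, h7, mul_one]
    linarith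

end Pool.Agent.R623.AF
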