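import Mathlib

/-!
# Fermat's equation over number fields: statements of the pieces (helper623, project AF)
-/

set_option autoImplicit false

namespace Pool.Agent.R623.AF

open NumberField IsDedekindDomain

/-- SCH: Schwarz lemma for interpolation determinants of `choose(t, j) * exp(l (c t + y))`. -/
def S_SCH : Prop := ∀ (ι : Type) [Fintype ι] [DecidableEq ι] (j l t : ι → ℕ) (y : ι → ℂ)
  (c : ℂ) (p X : ℕ) (Z : ℝ), 1 ≤ p → 0 ≤ Z → (∀ i, t i ≤ X) → (∀ i, ‖y i‖ ≤ Z) →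
  ‖(Matrix.of fun i i' => ((t i').choose (j i) : ℂ) *
      Complex.exp (l i * (c * t i' + y i'))).det‖ *
    Real.exp 1 ^ (Fintype.card ι * (Fintype.card ι - 1) / 2) ≤
  (Fintype.card ι).factorial * ∏ i, ((p : ℝ) ^ j i * Real.exp ((Real.exp 1 * X + j i) / p) *
    Real.exp (l i * (‖c‖ * (Real.exp 1 * X) + Real.exp 1 ^ Fintype.card ι * Z)))

/-- ZER: zero estimate. -/
def S_ZER : Prop := ∀ (A L R S p k : ℕ) (α : ℂ), Nat.Coprime k p → S ≤ p → 0 < p → α ≠ 0 →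
  (∀ e, 0 < e → e < L → α ^ e ≠ 1) → L * (A - 1) < R * S →
  ∀ c : Fin A → Fin L → ℂ,
    (∀ r s : ℕ, r < R → s < S + L → ∑ i : Fin A, ∑ l : Fin L,
      c i l * (((r * p + s * k).choose (i : ℕ) : ℂ) * α ^ (s * (l : ℕ))) = 0) → c = 0

/-- EXPR: a number whose `p`-th power is close to one. -/
def S_EXPR : Prop := ∀ (p : ℕ) (ζ : ℂ), 1 ≤ p → ‖ζ ^ p - 1‖ ≤ 1 / 2 →
  ∃ (k : ℕ) (Λ : ℂ), k < p ∧ ‖Λ‖ ≤ 2 * ‖ζ ^ p - 1‖ ∧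
    ζ = Complex.exp (2 * Real.pi * Complex.I * k / p + Λ / p) ∧ Complex.exp Λ = ζ ^ p

/-- ROU: such a number is not a root of unity of small order. -/
def S_ROU : Prop := ∀ (p k L : ℕ) (Λ : ℂ), 1 ≤ p → Λ ≠ 0 → L * ‖Λ‖ < 1 →
  ∀ e, 0 < e → e < L → Complex.exp (2 * Real.pi * Complex.I * k / p + Λ / p) ^ e ≠ 1

/-- LOC: local integrality. -/
def S_LOC : Prop := ∀ (K : Type) [Field K] [NumberField K] (v : HeightOneSpectrum (𝓞 K)) (p : ℕ)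
  (x y : K), p.Prime → Module.finrank ℚ K + 2 < p → x ^ p + y ^ p = 1 → x ≠ 0 → y ≠ 0 →
  v.valuation K (x + y) ≤ 1 →
  (∀ i j : ℕ, i + j + Module.finrank ℚ K + 1 ≤ p →
    v.valuation K ((x + y) * x ^ i * y ^ j) ≤ 1) ∧
  (1 < v.valuation K x → ∀ n : ℕ, n + Module.finrank ℚ K + 1 ≤ p →
    v.valuation K (x + y) ≤ WithZero.exp (-(n : ℤ)))

/-- DEN: an integer divisible by a high power of a prime has a large norm. -/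
def S_DEN : Prop := ∀ (K : Type) [Field K] [NumberField K] (v : HeightOneSpectrum (𝓞 K)) (s : K)
  (n : ℕ), s ≠ 0 → IsIntegral ℤ s → v.valuation K s ≤ WithZero.exp (-(n : ℤ)) →
  (2 : ℝ) ^ n ≤ ∏ σ : K →+* ℂ, ‖σ s‖

/-- KRO: integral solutions of `x ^ p + y ^ p = 1`. -/
def S_KRO : Prop := ∀ (K : Type) [Field K] [NumberField K], (∀ z : K, z ^ 2 + z + 1 ≠ 0) →
  ∃ δ : ℝ, 0 < δ ∧ ∀ p : ℕ, 0 < p → ∀ x y : K, IsIntegral ℤ x → IsIntegral ℤ y → x ≠ 0 → y ≠ 0 →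
    x ^ p + y ^ p = 1 → 1 + δ ≤ ∏ σ : K →+* ℂ, max 1 (max ‖σ x‖ ‖σ y‖)

/-- ARI: the arithmetic and analytic estimates of the interpolation determinant. -/
def S_ARI : Prop := S_SCH → S_ZER → ∀ (K : Type) [Field K] [NumberField K] (x y : K)
  (p k A L R S : ℕ) (h : ℝ) (σ₀ : K →+* ℂ) (Λ : ℂ), p.Prime → x ≠ 0 → y ≠ 0 → x + y ≠ 0 →
  0 < k → k < p → 1 ≤ A → 1 ≤ L → S + L ≤ p → L * (A - 1) < R * S →
  (∀ i j : ℕ, i + j ≤ L * (S + L) → IsIntegral ℤ ((x + y) * x ^ i * y ^ j)) →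
  ∏ σ : K →+* ℂ, max 1 (max ‖σ x‖ ‖σ y‖) ≤ Real.exp h →
  -(σ₀ y) / σ₀ x = Complex.exp (2 * Real.pi * Complex.I * k / p + Λ / p) →
  ‖Λ‖ ≤ Real.exp (-(A * L : ℝ)) →
  (∀ e, 0 < e → e < L → (-(σ₀ y) / σ₀ x) ^ e ≠ 1) →
  ((A * L : ℝ) - 1) / 2 ≤ Module.finrank ℚ K * Real.log (A * L) +
    Module.finrank ℚ K * A * Real.log p + (Module.finrank ℚ K + 2) * (R + S + L) +
    Module.finrank ℚ K + h * (1 + L * (S + L)) + A + L * (18 * (R + S + L) + 1)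

/-- NUM: the choice of the parameters. -/
def S_NUM : Prop := ∀ (d p L h : ℕ), 1 ≤ d → 2 ≤ p → 1 ≤ h → 16 * d * Real.log p ≤ L → 16 * d ≤ L →
  d * Real.log ((339264 * h * L : ℕ) * L) + d * (339264 * h * L : ℕ) * Real.log p +
    (d + 2) * ((600 * h * L : ℕ) + (577 * L : ℕ) + L) + d + h * (1 + L * ((577 * L : ℕ) + L)) +
    (339264 * h * L : ℕ) + L * (18 * ((600 * h * L : ℕ) + (577 * L : ℕ) + L) + 1) <
    (((339264 * h * L : ℕ) * L : ℝ) - 1) / 2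

/-- LIO: the case `k = 0`. -/
def S_LIO : Prop := ∀ (K : Type) [Field K] [NumberField K] (x y : K) (p : ℕ) (h : ℝ)
  (σ₀ : K →+* ℂ) (Λ : ℂ), 1 ≤ p → x ≠ 0 → y ≠ 0 → x + y ≠ 0 → IsIntegral ℤ (x + y) →
  ∏ σ : K →+* ℂ, max 1 (max ‖σ x‖ ‖σ y‖) ≤ Real.exp h →
  -(σ₀ y) / σ₀ x = Complex.exp (Λ / p) → ‖Λ‖ ≤ 1 →
  Real.exp (-(h + Module.finrank ℚ K + 1)) ≤ ‖Λ‖

/-- BK: the lower bound for `|(-y/x)^p - 1|`. -/
def S_BK : Prop := ∀ (K : Type) [Field K] [NumberField K] (x y : K) (p L h : ℕ) (σ₀ : K →+* ℂ),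
  p.Prime → x ≠ 0 → y ≠ 0 → x ^ p + y ^ p = 1 → 1 ≤ h →
  16 * Module.finrank ℚ K * Real.log p ≤ L → 16 * Module.finrank ℚ K ≤ L → 578 * L ≤ p →
  (∀ i j : ℕ, i + j ≤ L * (578 * L) → IsIntegral ℤ ((x + y) * x ^ i * y ^ j)) →
  ∏ σ : K →+* ℂ, max 1 (max ‖σ x‖ ‖σ y‖) ≤ Real.exp h →
  Real.exp (-(339264 * h * L ^ 2 + 1 : ℝ)) < ‖(-(σ₀ y) / σ₀ x) ^ p - 1‖

/-- MAIN -/
def S_MAIN : Prop := ∀ (K : Type) [Field K] [NumberField K], (∀ z : K, z ^ 2 + z + 1 ≠ 0) →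
  ∃ B : ℕ, ∀ p : ℕ, p.Prime → B < p → ∀ x y : K, x ≠ 0 → y ≠ 0 → x ^ p + y ^ p = 1 →
    ¬ ∀ v : HeightOneSpectrum (𝓞 K), v.valuation K (x + y) ≤ 1

end Pool.Agent.R623.AF
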