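import Pool.Agent.R623.AF.ARI
import Pool.Agent.R623.AF.KROU
import Pool.Agent.R623.AF.MAINU
import Pool.Agent.R790.AF_SCH
import Pool.Agent.R92.AF_ZER
import Pool.Agent.R657.AF_EXPR
import Pool.Agent.R392.AF_ROU
import Pool.Agent.R371.AF_LOC
import Pool.Agent.R676.AF_DEN
import Pool.Agent.R456.AF_NUM
import Pool.Agent.R788.AF_LIO
import Pool.Agent.R771.AF_BK
import Pool.Agent.H276R3.FQ.MainTR

/-!
# Fermat's equation over number fields: smooth solutions (final deduction)
-/

set_option autoImplicit false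

namespace Pool.Agent.R623.AF

open NumberField IsDedekindDomain

theorem mainu : S_MAINU :=
  MAINU (BK SCH ZER ARI EXPR ROU LIO NUM) LOC DEN KROU

theorem exists_prime (d : ℕ) : ∃ B : ℕ, ∀ (K : Type) [Field K] [NumberField K],
    Module.finrank ℚ K = d → (∀ z : K, z ^ 2 + z + 1 ≠ 0) → ∀ p : ℕ, p.Prime → B < p →
    ∀ a b c : K, a ≠ 0 → b ≠ 0 → c ≠ 0 → a ^ p + b ^ p + c ^ p = 0 →
    ∃ v : HeightOneSpectrum (𝓞 K), Ideal.absNorm v.asIdeal ≡ 1 [MOD p] ∧
      p < Ideal.absNorm v.asIdeal ∧ 1 < v.valuation K ((a + b) / c) ∧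
      v.valuation K a = v.valuation K b ∧ v.valuation K c < v.valuation K a := by
  obtain ⟨B, hB⟩ := mainu d
  refine ⟨B + d + 3, ?_⟩
  intro K _ _ hd hK p hp hBp a b c ha hb hc h
  have hodd : Odd p := hp.odd_of_ne_two (by omega)
  have e1 : (-(a / c)) ^ p + (-(b / c)) ^ p = 1 := by
    rw [hodd.neg_pow, hodd.neg_pow, div_pow, div_pow]
    field_simp
    linear_combination -h
  have hex : ∃ v : HeightOneSpectrum (𝓞 K),
      p ∣ Nat.card (𝓞 K ⧸ v.asIdeal) - 1 ∧ 1 < v.valuation K ((a + b) / c) := by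
    by_contra hcon
    push Not at hcon
    refine hB K hd hK p hp (by omega) (-(a / c)) (-(b / c)) (neg_ne_zero.2 (div_ne_zero ha hc))
      (neg_ne_zero.2 (div_ne_zero hb hc)) e1 fun v => ?_
    by_cases hQ : p ∣ Nat.card (𝓞 K ⧸ v.asIdeal) - 1
    · have := hcon v hQ
      have e : -(a / c) + -(b / c) = -((a + b) / c) := by ring
      rw [e, Valuation.map_neg]
      exact this
    · exact Pool.Agent.H276R3.FQ.local_int v hp (by omega) (by omega) hQ e1
  obtain ⟨v, hv, hlt⟩ := hex
  obtain ⟨hmod, hlt2⟩ := Pool.Agent.H276R3.FQ.card_modEq v hv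
  refine ⟨v, hmod, hlt2, hlt, ?_⟩
  have hp0 : p ≠ 0 := hp.ne_zero
  have hcv : v.valuation K c ≠ 0 := (Valuation.ne_zero_iff _).2 hc
  have h1 : v.valuation K c < v.valuation K (a + b) := by
    rw [map_div₀] at hlt
    rwa [one_lt_div₀ (zero_lt_iff.2 hcv)] at hlt
  have h2 : v.valuation K c < max (v.valuation K a) (v.valuation K b) :=
    lt_of_lt_of_le h1 (Valuation.map_add _ _ _)
  have h3 : v.valuation K a = v.valuation K b := by
    by_contra hne
    have hne' : v.valuation K (a ^ p) ≠ v.valuation K (b ^ p) := by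
      rw [map_pow, map_pow]
      exact fun h => hne ((pow_left_inj₀ zero_le' zero_le' hp0).1 h)
    have h4 := Valuation.map_add_of_distinct_val (v := v.valuation K) hne'
    have h5 : a ^ p + b ^ p = -(c ^ p) := by linear_combination h
    rw [h5, Valuation.map_neg, map_pow, map_pow, map_pow] at h4
    have h6 : (v.valuation K c) ^ p < (max (v.valuation K a) (v.valuation K b)) ^ p :=
      pow_lt_pow_left₀ h2 zero_le' hp0
    rcases le_total (v.valuation K a) (v.valuation K b) with h7 | h7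
    · rw [max_eq_right h7] at h6
      rw [max_eq_right (pow_le_pow_left₀ zero_le' h7 p)] at h4
      exact absurd h4 h6.ne
    · rw [max_eq_left h7] at h6
      rw [max_eq_left (pow_le_pow_left₀ zero_le' h7 p)] at h4
      exact absurd h4 h6.ne
  rw [← h3, max_self] at h2
  exact ⟨h3, h2⟩

/-- no denominators composed of small primes and `p` -/
theorem no_smooth {K : Type} [Field K] [NumberField K] {p : ℕ} {w : K}
    (v : HeightOneSpectrum (𝓞 K)) (hmod : Ideal.absNorm v.asIdeal ≡ 1 [MOD p])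
    (hlt2 : p < Ideal.absNorm v.asIdeal) (hp : p.Prime) (hlt : 1 < v.valuation K w)
    (e : ℕ) (he0 : 0 < e)
    (he : ∀ l : ℕ, l.Prime → l ∣ e → l ^ Module.finrank ℚ K ≤ p ∨ l = p) :
    ¬ IsIntegral ℤ ((e : K) * w) := by
  intro hint
  obtain ⟨r, hr⟩ : ∃ r : 𝓞 K, algebraMap (𝓞 K) K r = (e : K) * w := ⟨⟨_, hint⟩, rfl⟩
  have h4 : v.valuation K ((e : K) * w) ≤ 1 := by
    rw [← hr]; exact v.valuation_le_one r
  have h5 : v.valuation K (e : K) < 1 := by
    by_contra hge
    rw [not_lt] at hge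
    rw [map_mul] at h4
    have : 1 < v.valuation K (e : K) * v.valuation K w :=
      lt_of_lt_of_le hlt (le_mul_of_one_le_left' hge)
    exact absurd h4 (not_le.2 this)
  have h6 : (e : 𝓞 K) ∈ v.asIdeal := by
    rw [← v.valuation_lt_one_iff_mem (K := K)]
    change v.valuation K (algebraMap (𝓞 K) K (e : 𝓞 K)) < 1
    rw [map_natCast]; exact h5
  have h7 : ∃ l : ℕ, l.Prime ∧ l ∣ e ∧ (l : 𝓞 K) ∈ v.asIdeal := by
    have key : ∀ m : ℕ, 0 < m → (m : 𝓞 K) ∈ v.asIdeal → ∃ l : ℕ, l.Prime ∧ l ∣ m ∧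
        (l : 𝓞 K) ∈ v.asIdeal := by
      intro m
      induction m using Nat.recOnMul with
      | zero => intro h; omega
      | one =>
        intro _ h1
        rw [Nat.cast_one] at h1
        exact absurd ((Ideal.eq_top_iff_one _).2 h1) v.isPrime.ne_top
      | prime q hq => intro _ h1; exact ⟨q, hq, dvd_rfl, h1⟩
      | mul m n hm hn =>
        intro h0 h1
        rw [Nat.cast_mul] at h1
        have hm0 : 0 < m := by
          rcases Nat.eq_zero_or_pos m with h | h
          · rw [h, zero_mul] at h0; omega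
          · exact h
        have hn0 : 0 < n := by
          rcases Nat.eq_zero_or_pos n with h | h
          · rw [h, mul_zero] at h0; omega
          · exact h
        rcases v.isPrime.mem_or_mem h1 with h2 | h2
        · obtain ⟨l, hl, hl2, hl3⟩ := hm hm0 h2
          exact ⟨l, hl, hl2.mul_right _, hl3⟩
        · obtain ⟨l, hl, hl2, hl3⟩ := hn hn0 h2
          exact ⟨l, hl, hl2.mul_left _, hl3⟩
    exact key e he0 h6
  obtain ⟨l, hl, hld, hlv⟩ := h7
  have h8 : Ideal.absNorm v.asIdeal ∣ l ^ Module.finrank ℚ K := by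
    have h9 : Ideal.span {(l : 𝓞 K)} ≤ v.asIdeal := by
      rw [Ideal.span_singleton_le_iff_mem]; exact hlv
    have h10 := Ideal.absNorm_dvd_absNorm_of_le h9
    have h2 : Ideal.absNorm (Ideal.span {(l : 𝓞 K)}) = l ^ Module.finrank ℚ K := by
      rw [Ideal.absNorm_span_singleton]
      have : ((l : ℕ) : 𝓞 K) = algebraMap ℤ (𝓞 K) (l : ℤ) := by simp
      rw [this, Algebra.norm_algebraMap, RingOfIntegers.rank, Int.natAbs_pow, Int.natAbs_natCast]
    rwa [h2] at h10
  rcases he l hl hld with h11 | h11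
  · have := Nat.le_of_dvd (pow_pos hl.pos _) h8
    omega
  · subst h11
    obtain ⟨i, -, hi⟩ := (Nat.dvd_prime_pow hl).1 h8
    rw [hi] at hmod hlt2
    have hi1 : i ≠ 0 := by
      rintro rfl
      rw [pow_zero] at hlt2
      have := hl.one_lt
      omega
    have h12 : l ^ i ≡ 0 [MOD l] := (Nat.modEq_zero_iff_dvd).2 (dvd_pow_self l hi1)
    have h13 : 1 ≡ 0 [MOD l] := hmod.symm.trans h12
    have h14 := (Nat.modEq_zero_iff_dvd).1 h13
    have := Nat.le_of_dvd one_pos h14
    have := hl.one_lt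
    omega

end Pool.Agent.R623.AF
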