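import Pool.Agent.R623.AF.Stm

/-!
# Uniform versions (project AF, helper623)
-/

set_option autoImplicit false

namespace Pool.Agent.R623.AF

open NumberField IsDedekindDomain

/-- KROU: uniform version of KRO; `δ` depends only on the degree. -/
def S_KROU : Prop := ∀ d : ℕ, ∃ δ : ℝ, 0 < δ ∧ ∀ (K : Type) [Field K] [NumberField K],
  Module.finrank ℚ K = d → (∀ z : K, z ^ 2 + z + 1 ≠ 0) →
  ∀ p : ℕ, 0 < p → ∀ x y : K, IsIntegral ℤ x → IsIntegral ℤ y → x ≠ 0 → y ≠ 0 →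
    x ^ p + y ^ p = 1 → 1 + δ ≤ ∏ σ : K →+* ℂ, max 1 (max ‖σ x‖ ‖σ y‖)

/-- MAINU: uniform version of MAIN; `B` depends only on the degree. -/
def S_MAINU : Prop := ∀ d : ℕ, ∃ B : ℕ, ∀ (K : Type) [Field K] [NumberField K],
  Module.finrank ℚ K = d → (∀ z : K, z ^ 2 + z + 1 ≠ 0) →
  ∀ p : ℕ, p.Prime → B < p → ∀ x y : K, x ≠ 0 → y ≠ 0 → x ^ p + y ^ p = 1 →
    ¬ ∀ v : HeightOneSpectrum (𝓞 K), v.valuation K (x + y) ≤ 1

end Pool.Agent.R623.AF
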